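import Pool.Agent.H.MP_bbed2d_pr.B

namespace Pool.Agent.Results.MP_bbed2d_pr.No

open Finset Pool.Agent.H.MP_bbed2d_pr
open scoped ENNReal

theorem result (p : ℝ) (hp : 2 < p) (C : ℝ) :
    ∃ (V : Type) (_ : Fintype V) (_ : DecidableEq V) (G : SimpleGraph V) (_ : DecidableRel G.Adj)
      (I : Finset V) (f h : V → ℝ) (ε : ℝ),
      G.Connected ∧ I.Nonempty ∧ Iᶜ.Nonempty ∧ (∀ v, 0 ≤ f v ∧ f v ≤ 1) ∧ (∀ v ∉ I, h v = f v) ∧
      (∀ v ∈ I, ∑ w ∈ G.neighborFinset v,
        (SignType.sign (h v - h w) : ℝ) * |h v - h w| ^ (p - 1) = 0) ∧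
      0 < ε ∧ ε ≤ 1 / 2 ∧
      ENNReal.ofReal (C * I.card * G.edgeFinset.card * G.diam * Real.log (Fintype.card V / ε))
        < ETau G I p f h ε := by
  set K : ℝ := 2 / (p - 2) with hK
  have hp2 : 0 < p - 2 := by linarith
  have hK0 : 0 < K := by positivity
  have h1 := Real.isLittleO_log_id_atTop.bound
    (c := 1 / (10000 * (|C| + 1) * (K + 4))) (by positivity)
  obtain ⟨N, hN6, hN⟩ := ((Filter.eventually_ge_atTop 6).and
    (tendsto_natCast_atTop_atTop.eventually h1)).exists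
  have hN6' : (6 : ℝ) ≤ N := by exact_mod_cast hN6
  have hN0 : (0 : ℝ) < N := by linarith
  have hl0 : 0 ≤ Real.log N := Real.log_nonneg (by linarith)
  simp only [id, Real.norm_eq_abs, Nat.abs_cast, abs_of_nonneg hl0] at hN
  rw [one_div_mul_eq_div, le_div_iff₀ (by positivity)] at hN
  set δ : ℝ := 1 / N / 2 * (N : ℝ) ^ (-K) with hδ
  have hr : (N : ℝ) ^ (-K) ≤ 1 := Real.rpow_le_one_of_one_le_of_nonpos (by linarith) (by linarith)
  have hr0 : 0 < (N : ℝ) ^ (-K) := by positivity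
  have hδ0 : 0 < δ := by positivity
  have hδ1 : 2 * δ ≤ 1 / N := by
    have : 1 / (N : ℝ) / 2 * (N : ℝ) ^ (-K) ≤ 1 / N / 2 * 1 := by gcongr
    linarith
  have hη : δ ^ (p - 2) ≤ (1 / N ^ 2) * (1 / N / 2) ^ (p - 2) := by
    rw [hδ, Real.mul_rpow (by positivity) hr0.le, ← Real.rpow_mul hN0.le,
      show -K * (p - 2) = -(2 : ℕ) by rw [hK]; field_simp; norm_num, Real.rpow_neg hN0.le,
      Real.rpow_natCast, mul_comm, one_div ((N : ℝ) ^ 2)]
  have hN1 : 1 / (N : ℝ) ≤ 1 / 6 := one_div_le_one_div_of_le (by norm_num) hN6'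
  set t : ℕ := N ^ 3 / 100 with ht
  have ht1 : 100 * (t : ℝ) ≤ N ^ 3 := by exact_mod_cast Nat.mul_div_le (N ^ 3) 100
  have ht2 : (N : ℝ) ^ 3 < 100 * t + 100 := by
    exact_mod_cast (by omega : N ^ 3 < 100 * t + 100)
  have hm := main (p := p) (by omega : 2 ≤ N) hp.le hδ0 hδ1 hη t (by nlinarith)
  refine ⟨W N, inferInstance, inferInstance, GG N, inferInstance, II N, f0 N δ, hh N, δ / 2,
    conn, card_pos.1 (by rw [card_II]; omega), ⟨none, by simp [mem_II, P]⟩, ?_, ?_, ?_,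
    by positivity, by linarith, lt_of_lt_of_le ?_ hm⟩
  · intro v
    unfold f0
    split_ifs with h
    · obtain ⟨k, hk, rfl⟩ := mem_II.1 h
      rw [hh_P (by omega)]
      refine ⟨by positivity, ?_⟩
      have : ((k + 1 : ℕ) : ℝ) + 1 ≤ N := by exact_mod_cast hk
      have h2 : ((k + 1 : ℕ) : ℝ) / N + 1 / N ≤ 1 := by
        rw [← add_div, div_le_one hN0]; exact this
      linarith
    · rcases v with _ | ⟨i, b⟩
      · simp [hh]
      · refine ⟨by simp only [hh]; positivity, ?_⟩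
        simp only [hh]
        rw [div_le_one hN0]
        exact_mod_cast Nat.lt_succ_iff.1 i.2
  · intro v hv
    simp [f0, hv]
  · intro v hv
    obtain ⟨k, hk, rfl⟩ := mem_II.1 hv
    rw [sum_nbr hk, hh_P (by omega), hh_P (by omega), hh_P (by omega), hh_Q (by omega)]
    have e1 : ((k + 1 : ℕ) : ℝ) / N - (k : ℝ) / N = 1 / N := by push_cast; ring
    have e2 : ((k + 1 : ℕ) : ℝ) / N - ((k + 2 : ℕ) : ℝ) / N = -(1 / N) := by push_cast; ring
    rw [e1, e2, sub_self, abs_neg, Right.sign_neg]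
    simp
  · have e : (t : ℝ≥0∞) / 2 = ENNReal.ofReal (t / 2) := by
      rw [ENNReal.ofReal_div_of_pos (by norm_num)]; simp
    rw [e, ENNReal.ofReal_lt_ofReal_iff (by nlinarith [pow_le_pow_left₀ (by norm_num) hN6' 3])]
    have c1 : ((II N).card : ℝ) ≤ N := by rw [card_II]; exact_mod_cast Nat.sub_le N 1
    have c2 : ((GG N).edgeFinset.card : ℝ) ≤ 6 * N := by
      have := edges_le (N := N)
      exact_mod_cast (by omega : (GG N).edgeFinset.card ≤ 6 * N)
    have c3 : ((GG N).diam : ℝ) ≤ 4 := by exact_mod_cast diam_le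
    have c4 : (Fintype.card (W N) : ℝ) = 2 * N + 3 := by simp; ring
    have c5 : (Fintype.card (W N) : ℝ) / (δ / 2) = (2 * N + 3) * (4 * N) * (N : ℝ) ^ K := by
      rw [c4, hδ, Real.rpow_neg hN0.le]; field_simp; norm_num
    have hrK : 1 ≤ (N : ℝ) ^ K := Real.one_le_rpow (by linarith) hK0.le
    have c6 : Real.log ((Fintype.card (W N) : ℝ) / (δ / 2)) ≤ (K + 4) * Real.log N := by
      rw [c5, ← Real.log_rpow hN0, Real.rpow_add hN0, mul_comm ((N : ℝ) ^ K)]
      apply Real.log_le_log (by positivity)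
      gcongr
      rw [show (4 : ℝ) = (4 : ℕ) by norm_num, Real.rpow_natCast]
      have : (36 : ℝ) ≤ N ^ 2 := by nlinarith
      push_cast
      nlinarith
    have c7 : 0 ≤ Real.log ((Fintype.card (W N) : ℝ) / (δ / 2)) := by
      rw [c5]
      apply Real.log_nonneg
      have : (1 : ℝ) ≤ (2 * N + 3) * (4 * N) := by nlinarith
      nlinarith
    calc _ ≤ (|C| + 1) * N * (6 * N) * 4 * ((K + 4) * Real.log N) := by
          gcongr
          linarith [le_abs_self C]
      _ = (Real.log N * (10000 * (|C| + 1) * (K + 4))) * (N ^ 2 * (24 / 10000)) := by ring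
      _ ≤ N * (N ^ 2 * (24 / 10000)) := by gcongr
      _ < _ := by nlinarith [pow_le_pow_left₀ (by norm_num) hN6' 3]

end Pool.Agent.Results.MP_bbed2d_pr.No
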